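import Pool.Agent.Helper81_LSP.CLPa
import Pool.Agent.LE.StmtsQE

/-!
# CLQ: the kinetic clusters (copy of the proof of CLP by helper81, with the radius at most K / σ ^ 2)
-/

set_option autoImplicit false

open MeasureTheory ProbabilityTheory Function Filter

open scoped ENNReal BigOperators Topology NNReal

noncomputable section

namespace Pool.Agent.LE.QD.H88

open Pool.Agent.Anderson hiding box mem_box card_box
open Pool.Agent.Loc Pool.Agent.Mob Pool.Agent.Helper54.Bal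
  Pool.Agent.Helper96.EXP Pool.Agent.BED
open Pool.Agent.LE.MN Pool.Agent.LE.CL Pool.Agent.LE.CL.H81

/-- the scales -/
theorem clq_scales {d : ℕ} {l η C₁ : ℝ} (hd0 : (3 : ℝ) ≤ d) (hl3 : 3 ≤ l) (hη0 : 0 < η)
    (hinv1 : 1 ≤ 1 / η) (hinv : 1 / η ≤ Real.exp (2 * l)) (hC₁1 : 1 ≤ C₁)
    (hQ : 24 * d * C₁ * l ^ 2 + 7 ≤ Real.exp l) :
    ∃ R₁ J : ℕ, C₁ * l / η ≤ R₁ ∧ 5 * d * l ≤ J ∧ (J : ℝ) ≤ 6 * d * l ∧ 1 ≤ J ∧ 1 ≤ R₁ ∧
      (2 * ((J * R₁ : ℕ) : ℝ) + 7) ≤ Real.exp (3 * l) ∧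
      ((J * R₁ : ℕ) : ℝ) ≤ (6 * d * l) * (2 * (C₁ * l) * (1 / η)) := by
  have hlp : 0 < l := by linarith
  have hR₁l : C₁ * l / η ≤ ⌈C₁ * l / η⌉₊ := Nat.le_ceil _
  have hR₁u : (⌈C₁ * l / η⌉₊ : ℝ) ≤ 2 * (C₁ * l) * (1 / η) := by
    have h1 : (⌈C₁ * l / η⌉₊ : ℝ) < C₁ * l / η + 1 := Nat.ceil_lt_add_one (by positivity)
    have h2 : 1 ≤ C₁ * l * (1 / η) := by
      have h3 : 1 ≤ C₁ * l := olm hC₁1 (by linarith)
      exact olm h3 hinv1
    have h3 : C₁ * l / η = C₁ * l * (1 / η) := by ring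
    rw [h3] at h1
    rw [h3]
    linarith
  have hJl : 5 * d * l ≤ ⌈5 * d * l⌉₊ := Nat.le_ceil _
  have hJu : (⌈5 * d * l⌉₊ : ℝ) ≤ 6 * d * l := by
    have h1 : (⌈5 * d * l⌉₊ : ℝ) < 5 * d * l + 1 := Nat.ceil_lt_add_one (by positivity)
    have h2 : 1 ≤ (d : ℝ) * l := olm (by linarith) (by linarith)
    linarith
  have hJ1 : 1 ≤ ⌈5 * d * l⌉₊ := by
    have h1 : (0 : ℝ) < ⌈5 * d * l⌉₊ := by
      have : 0 < 5 * (d : ℝ) * l := by positivity
      linarith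
    exact_mod_cast h1
  have hR₁1 : 1 ≤ ⌈C₁ * l / η⌉₊ := by
    have h1 : (0 : ℝ) < ⌈C₁ * l / η⌉₊ := by
      have : 0 < C₁ * l / η := by positivity
      linarith
    exact_mod_cast h1
  have h1 : ((⌈5 * d * l⌉₊ * ⌈C₁ * l / η⌉₊ : ℕ) : ℝ) ≤
      (6 * d * l) * (2 * (C₁ * l) * (1 / η)) := by
    push_cast
    gcongr
  refine ⟨⌈C₁ * l / η⌉₊, ⌈5 * d * l⌉₊, hR₁l, hJl, hJu, hJ1, hR₁1, ?_, h1⟩
  calc (2 * ((⌈5 * d * l⌉₊ * ⌈C₁ * l / η⌉₊ : ℕ) : ℝ) + 7) ≤
        2 * ((6 * d * l) * (2 * (C₁ * l) * (1 / η))) + 7 * (1 / η) := by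
        linarith
    _ = (24 * d * C₁ * l ^ 2 + 7) * (1 / η) := by ring
    _ ≤ Real.exp l * Real.exp (2 * l) := by gcongr
    _ = Real.exp (3 * l) := by
      rw [← Real.exp_add]
      ring_nf

/-- CLQ -/
theorem clq (clb : ClbStmt) (tsa : TsaStmt) (dua : DuaStmt) (prb : PrbStmt) : ClqStmt := by
  intro d δ A hd hδ hA
  obtain ⟨cT, CT, hcT, hCT, htsa⟩ := tsa d δ hd hδ
  obtain ⟨c, c₂, C, hc, hc1, hc₂, hC, hclb⟩ := clb d cT CT hd hcT hCT
  obtain ⟨CP, hCP, hprb⟩ := prb d (A + 3) hd (by linarith)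
  have hd0 : (3 : ℝ) ≤ d := by exact_mod_cast hd
  set K₁ : ℝ := 36 * CP / c with hK₁
  have hK₁1 : 1 ≤ K₁ := by
    rw [hK₁, le_div_iff₀ hc]
    linarith
  set c₃ : ℝ := min c₂ 1 with hc₃
  have hc₃0 : 0 < c₃ := lt_min hc₂ one_pos
  have hc₃1 : c₃ ≤ 1 := min_le_right _ _
  have hc₃2 : c₃ ≤ c₂ := min_le_left _ _
  set a₀ : ℝ := A + 6 * d + 5 with ha₀
  set C₁ : ℝ := C * (a₀ + 5) with hC₁
  have hC₁1 : 1 ≤ C₁ := by
    rw [hC₁]
    exact olm hC (by rw [ha₀]; linarith)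
  obtain ⟨l₀, hl₀, hnum⟩ := clp_nums (min c (c₃ / 2)) K₁ (24 * d * C₁) (A + 3 * d + 3)
    (lt_min hc (by positivity)) hK₁1 (by positivity) (by positivity)
  have hKa : 0 < 2 / c₃ := by positivity
  have hKb : 1 ≤ 2 / c₃ := by
    rw [le_div_iff₀ hc₃0]
    linarith
  set K : ℝ := K₁ * (2 / c₃) + 6 * C + 6 * d + (12 * d * C₁ + 2) with hK
  have hKp : 0 < K₁ * (2 / c₃) := by positivity
  have hKq : 0 < 12 * (d : ℝ) * C₁ := by positivity
  have hK0 : 1 ≤ K := by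
    rw [hK]
    linarith
  refine ⟨Real.exp (-l₀), K, Real.exp_pos _, ?_, hK0, ?_⟩
  · have h1 : Real.exp (-l₀) ≤ Real.exp (-3) := Real.exp_le_exp.2 (by linarith)
    have h2 := Real.add_one_le_exp (3 : ℝ)
    have h3 : Real.exp (-3) = (Real.exp 3)⁻¹ := Real.exp_neg 3
    have h4 : (Real.exp 3)⁻¹ ≤ (4 : ℝ)⁻¹ := inv_anti₀ (by norm_num) (by linarith)
    linarith
  intro σ E hσ hσc hE
  have hσ0 : 0 < |σ| := abs_pos.2 hσ
  set l : ℝ := Real.log (1 / |σ|) with hl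
  have hσl : |σ| = Real.exp (-l) := by
    rw [hl, one_div, Real.log_inv, neg_neg, Real.exp_log hσ0]
  have hl0 : l₀ ≤ l := by
    rw [hσl] at hσc
    have := Real.exp_le_exp.1 hσc
    linarith
  obtain ⟨hηmin, hQ, hS⟩ := hnum l hl0
  have hl3 : 3 ≤ l := hl₀.trans hl0
  have hlp : 0 < l := by linarith
  have hσ2 : σ ^ 2 = Real.exp (-l) ^ 2 := by rw [← hσl, sq_abs]
  set η : ℝ := K₁ * σ ^ 2 * l ^ 4 with hη
  have hη' : η = K₁ * Real.exp (-l) ^ 2 * l ^ 4 := by rw [hη, hσ2]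
  rw [← hη'] at hηmin
  have hηc : η ≤ c := hηmin.trans (min_le_left _ _)
  have hηc₃ : η ≤ c₃ / 2 := hηmin.trans (min_le_right _ _)
  have hη1 : η ≤ 1 := hηc.trans hc1
  have he0 : 0 < Real.exp (-l) ^ 2 := by positivity
  have hη0 : 0 < η := by
    rw [hη']
    positivity
  have hηe : Real.exp (-l) ^ 2 ≤ η := by
    have h1 : 1 ≤ K₁ * l ^ 4 := by
      have : (1 : ℝ) ≤ l ^ 4 := one_le_pow₀ (by linarith)
      exact olm hK₁1 this
    rw [hη']
    calc Real.exp (-l) ^ 2 ≤ (K₁ * l ^ 4) * Real.exp (-l) ^ 2 := olm' h1 he0.le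
      _ = K₁ * Real.exp (-l) ^ 2 * l ^ 4 := by ring
  have hinv : 1 / η ≤ Real.exp (2 * l) := by
    rw [div_le_iff₀ hη0]
    have h5 : Real.exp (2 * l) * Real.exp (-l) ^ 2 = 1 := by
      rw [← Real.exp_nat_mul, ← Real.exp_add]
      rw [show 2 * l + ((2 : ℕ) : ℝ) * -l = 0 by push_cast; ring, Real.exp_zero]
    calc (1 : ℝ) = Real.exp (2 * l) * Real.exp (-l) ^ 2 := h5.symm
      _ ≤ Real.exp (2 * l) * η := by gcongr
  have hinv1 : 1 ≤ 1 / η := by
    rw [le_div_iff₀ hη0]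
    linarith
  have hlogη : Real.log (1 / η) ≤ 2 * l := by
    calc Real.log (1 / η) ≤ Real.log (Real.exp (2 * l)) := Real.log_le_log (by positivity) hinv
      _ = 2 * l := Real.log_exp _
  have hlogη0 : 0 ≤ Real.log (1 / η) := Real.log_nonneg hinv1
  have h3l : 1 + Real.log (1 / η) ≤ 3 * l := by linarith
  have hσ12 : |σ| ≤ 1 / 2 := by
    have h1 : Real.exp (-l) ≤ Real.exp (-3) := Real.exp_le_exp.2 (by linarith)
    have h2 := Real.add_one_le_exp (3 : ℝ)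
    have h3 : Real.exp (-3) = (Real.exp 3)⁻¹ := Real.exp_neg 3
    have h4 : (Real.exp 3)⁻¹ ≤ (4 : ℝ)⁻¹ := inv_anti₀ (by norm_num) (by linarith)
    rw [hσl]
    linarith
  have hpow : ∀ a : ℝ, |σ| ^ a = Real.exp (-(a * l)) := by
    intro a
    rw [hσl, ← Real.exp_mul]
    ring_nf
  -- the scales
  obtain ⟨R₁, J, hR₁l, hJl, hJu, hJ1, hR₁1, hRu, hRw⟩ :=
    clq_scales hd0 hl3 hη0 hinv1 hinv hC₁1 hQ
  have hdl : 0 < (d : ℝ) * l := by positivity
  set R : ℕ := J * R₁ with hR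
  have hR1 : 1 ≤ R := Nat.mul_pos hJ1 hR₁1
  have hR1' : (1 : ℝ) ≤ R := by exact_mod_cast hR1
  have hR0 : (0 : ℝ) ≤ R := Nat.cast_nonneg _
  have hlogR : Real.log R ≤ 3 * l := by
    calc Real.log R ≤ Real.log (Real.exp (3 * l)) :=
          Real.log_le_log (by linarith) (by linarith)
      _ = 3 * l := Real.log_exp _
  -- powers of `η`
  have hηd : η ^ (-(d : ℝ)) = (1 / η) ^ d := by
    rw [Real.rpow_neg hη0.le, Real.rpow_natCast, one_div, inv_pow]
  have hηd1 : 1 / η ≤ (1 / η) ^ d := le_self_pow₀ hinv1 (by omega)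
  have hηd2 : 2 ≤ c₃ * (1 / η) ^ d := by
    have h1 : 2 ≤ c₃ * (1 / η) := by
      rw [mul_one_div, le_div_iff₀ hη0]
      linarith
    calc 2 ≤ c₃ * (1 / η) := h1
      _ ≤ c₃ * (1 / η) ^ d := by gcongr
  set n : ℕ := ⌊c₃ * (1 / η) ^ d⌋₊ with hn
  have hnu : (n : ℝ) ≤ c₃ * (1 / η) ^ d := Nat.floor_le (by positivity)
  have hnl : c₃ / 2 * (1 / η) ^ d ≤ n := by
    have h1 : c₃ * (1 / η) ^ d < n + 1 := Nat.lt_floor_add_one _
    linarith
  have hn1 : 1 ≤ n := by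
    have h1 : (1 : ℝ) ≤ n := by
      refine le_trans ?_ hnl
      linarith
    exact_mod_cast h1
  -- the test multiplier
  have hT₀ : 1 ≤ c / η := by
    rw [le_div_iff₀ hη0]
    linarith
  obtain ⟨T, q, hT1, hT2, htst⟩ := htsa E (c / η) hE hT₀
  -- the operator bound
  set τ : ℝ := Real.sqrt (c / (3 * l)) with hτ
  have hτ2 : τ ^ 2 = c / (3 * l) := Real.sq_sqrt (by positivity)
  have hτ0 : 0 < τ := Real.sqrt_pos.2 (by positivity)
  have hτ1 : τ ≤ 1 := by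
    rw [hτ, Real.sqrt_le_iff]
    refine ⟨zero_le_one, ?_⟩
    rw [one_pow, div_le_iff₀ (by positivity)]
    linarith
  have hτc : τ ^ 2 * (1 + Real.log (1 / η)) ≤ c := by
    rw [hτ2]
    calc c / (3 * l) * (1 + Real.log (1 / η)) ≤ c / (3 * l) * (3 * l) := by gcongr
      _ = c := by field_simp
  have hprb1 : ∀ b : Site d, PP d (gl σ) {V | ¬ ∀ v : (box b R) → ℂ,
      nsq (Matrix.mulVec (XM (Csq (box b R) E η hη0) (fun y => V y)) v) ≤ τ ^ 2 * nsq v} ≤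
        ENNReal.ofReal (|σ| ^ (A + 3)) := by
    intro b
    refine hprb σ E η τ R b hη0 hσ hσ12 hη1 hτ0 hτ1 ?_ ?_
    · rw [← hl, hτ2]
      have h1 : CP * σ ^ 2 * (1 + l) ^ 2 * (1 + Real.log (1 / η)) ≤
          CP * σ ^ 2 * (2 * l) ^ 2 * (3 * l) := by
        gcongr
        linarith
      refine h1.trans (le_of_eq ?_)
      rw [hη, hK₁]
      field_simp
      ring
    · rw [hpow]
      refine le_trans (by linarith : (2 * (R : ℝ) + 1) ≤ 2 * R + 7) (hRu.trans ?_)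
      refine Real.exp_le_exp.2 ?_
      have := num_a hA hlp
      linarith
  refine ⟨n, R + 2, J, 6 * C * l, olm (by linarith) (by linarith), ?_, by omega, ?_, hJ1, ?_, hn1, ?_, ?_, ?_⟩
  · have h1 : 6 * C ≤ K := by
      rw [hK]
      linarith
    gcongr
  · have hs2 : 0 < σ ^ 2 := by positivity
    have hs1 : σ ^ 2 ≤ 1 := by
      rw [← sq_abs]
      have : |σ| ^ 2 ≤ (1 / 2) ^ 2 := by gcongr
      linarith
    have hRv : (R : ℝ) ≤ 12 * d * C₁ / σ ^ 2 := by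
      refine hRw.trans ?_
      have hl2 : 1 ≤ K₁ * l ^ 2 := olm hK₁1 (one_le_pow₀ (by linarith))
      have e1 : (6 * d * l) * (2 * (C₁ * l) * (1 / η)) =
          12 * d * C₁ / σ ^ 2 * (1 / (K₁ * l ^ 2)) := by
        rw [hη]
        field_simp
        ring
      rw [e1]
      have h2 : 0 ≤ 12 * d * C₁ / σ ^ 2 := by positivity
      have h3 : 1 / (K₁ * l ^ 2) ≤ 1 := by
        rw [div_le_one (by linarith)]
        exact hl2
      calc 12 * d * C₁ / σ ^ 2 * (1 / (K₁ * l ^ 2)) ≤ 12 * d * C₁ / σ ^ 2 * 1 := by gcongr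
        _ = 12 * d * C₁ / σ ^ 2 := mul_one _
    have h4 : (2 : ℝ) ≤ 2 / σ ^ 2 := by
      rw [le_div_iff₀ hs2]
      linarith
    calc ((R + 2 : ℕ) : ℝ) = R + 2 := by push_cast; ring
      _ ≤ 12 * d * C₁ / σ ^ 2 + 2 / σ ^ 2 := add_le_add hRv h4
      _ = (12 * d * C₁ + 2) / σ ^ 2 := by ring
      _ ≤ K / σ ^ 2 := by
        gcongr
        rw [hK]
        have : 0 < C := by linarith
        linarith
  · refine hJu.trans ?_
    have h1 : 6 * (d : ℝ) ≤ K := by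
      rw [hK]
      linarith
    gcongr
  · rw [hpow]
    refine hnu.trans ?_
    calc c₃ * (1 / η) ^ d ≤ 1 * (Real.exp (2 * l)) ^ d := by gcongr
      _ = Real.exp (-(-(2 * (d : ℝ)) * l)) := by
        rw [one_mul, ← Real.exp_nat_mul]
        congr 1
        ring
  · refine le_trans (clp_pow hd hc₃0 hc₃1 hη hη0 ?_ (by positivity)) hnl
    rw [hK]
    linarith
  · intro N b hbox
    have hb := bad_prob hσ E (a₀ * l) (|σ| ^ (A + 3)) N R b (fun V => ∀ v : (box b R) → ℂ,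
      nsq (Matrix.mulVec (XM (Csq (box b R) E η hη0) (fun y => V y)) v) ≤ τ ^ 2 * nsq v)
      (by positivity) (hprb1 b)
    refine (measure_mono ?_).trans (hb.trans (ENNReal.ofReal_le_ofReal ?_))
    · intro V hV
      rw [Set.mem_ofPred_eq] at hV ⊢
      rintro ⟨h1, h2, h3, h4⟩
      apply hV
      have h5 := hclb V N R R₁ J E η τ (6 * C * l) (a₀ * l) T b q hη0 hηc (by linarith)
        (by positivity) hτ0.le hτc hT1 hT2 htst hbox le_rfl ?_ ?_ ?_ h1 h2 h3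
        (kf_of dua hη0 hτ0.le h4)
      · have h6 : (n : ℝ) ≤ (rch V (box 0 N) E (6 * C * l) b R J).card := by
          refine le_trans hnu (le_trans ?_ h5)
          rw [hηd]
          gcongr
        have h7 : n ≤ (rch V (box 0 N) E (6 * C * l) b R J).card := by exact_mod_cast h6
        exact h7.trans (Finset.card_le_card (rch_mono_rad (by omega) J))
      · have h6 : ((2 * (R : ℝ) + 1) ^ d) < 2 ^ J := by
          calc (2 * (R : ℝ) + 1) ^ d ≤ (Real.exp (3 * l)) ^ d := by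
                gcongr
                linarith
            _ = Real.exp (d * (3 * l)) := by rw [← Real.exp_nat_mul]
            _ < Real.exp (J * Real.log 2) := by
                refine Real.exp_lt_exp.2 ?_
                have h7 := Real.log_two_gt_d9
                have h8 : 5 * d * l * Real.log 2 ≤ J * Real.log 2 := by
                  gcongr
                have h9 : d * (3 * l) < 5 * d * l * Real.log 2 := num_d hdl h7
                linarith
            _ = 2 ^ J := by rw [Real.exp_nat_mul, Real.exp_log (by norm_num)]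
        exact_mod_cast h6
      · calc C * (a₀ * l + Real.log (1 / η) + Real.log R)
            ≤ C * (a₀ * l + 2 * l + 3 * l) := by gcongr
          _ = η * (C₁ * l / η) := by
            rw [hC₁]
            field_simp
            ring
          _ ≤ η * R₁ := by gcongr
      · calc C * (1 + Real.log (1 / η) + Real.log R) ≤ C * (3 * l + 3 * l) := by gcongr
          _ = 6 * C * l := by ring
    · rw [hpow, hpow]
      exact clp_tail hl3 hR0 hRu hS (by rw [hσl, Real.exp_neg, one_div, inv_inv])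

end Pool.Agent.LE.QD.H88
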